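import Pool.Agent.Lib.lead.CXGraphRed

/-!
# Two disjoint perfect matchings, the first one monochromatic

Input format and transfer to graphs with named vertices.
-/

set_option autoImplicit false

namespace Pool.Agent.Zk94.Col

open Pool.Agent.Lib.CX

/-- a 2-edge-coloured bipartite graph as an input: the numbers of vertices of the two sides (in
unary), the list of the edges of colour `1`, and a list of edges, those of which that are not in
the first list have colour `2` -/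
abbrev CBG := List Unit × List Unit × List (ℕ × ℕ) × List (ℕ × ℕ)

/-- the number of vertices of the side `U` -/
abbrev CBG.nU (a : CBG) : ℕ := a.1.length
/-- the number of vertices of the side `V` -/
abbrev CBG.nV (a : CBG) : ℕ := a.2.1.length
/-- the set of the edges, pairs of a vertex of `U` and a vertex of `V` -/
def CBG.edges (a : CBG) : Set (Fin a.nU × Fin a.nV) :=
  {e | (e.1.1, e.2.1) ∈ a.2.2.1 ∨ (e.1.1, e.2.1) ∈ a.2.2.2}
/-- the set of the edges of colour `1` -/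
def CBG.colour1 (a : CBG) : Set (Fin a.nU × Fin a.nV) := {e | (e.1.1, e.2.1) ∈ a.2.2.1}

/-- `M` is a perfect matching of the bipartite graph with the edge set `E`: a set of edges covering
each vertex exactly once -/
def IsPerfectMatching {n m : ℕ} (E M : Set (Fin n × Fin m)) : Prop :=
  M ⊆ E ∧ (∀ u, ∃! v, (u, v) ∈ M) ∧ ∀ v, ∃! u, (u, v) ∈ M

/-- the problem COL-2PM -/
def Col2PM (a : CBG) : Prop :=
  ∃ M₁ M₂ : Set (Fin a.nU × Fin a.nV), IsPerfectMatching a.edges M₁ ∧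
    IsPerfectMatching a.edges M₂ ∧ Disjoint M₁ M₂ ∧ M₁ ⊆ a.colour1

theorem pm_equiv {n m : ℕ} {E M : Set (Fin n × Fin m)} (h : IsPerfectMatching E M) :
    ∃ σ : Fin n ≃ Fin m, ∀ u v, (u, v) ∈ M ↔ v = σ u := by
  obtain ⟨-, h1, h2⟩ := h
  choose f hf hf' using h1
  choose g hg hg' using h2
  refine ⟨⟨f, g, fun u => (hg' _ _ (hf u)).symm, fun v => (hf' _ _ (hg v)).symm⟩, fun u v => ?_⟩
  exact ⟨fun h => hf' u v h, fun h => by rw [h]; exact hf u⟩

theorem pm_of_equiv {n m : ℕ} {E : Set (Fin n × Fin m)} (σ : Fin n ≃ Fin m)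
    (h : ∀ u, (u, σ u) ∈ E) : IsPerfectMatching E {e | e.2 = σ e.1} := by
  refine ⟨?_, fun u => ⟨σ u, rfl, fun v hv => hv⟩, fun v => ⟨σ.symm v, by simp, fun u hu => ?_⟩⟩
  · rintro ⟨u, v⟩ e
    have e' : v = σ u := e
    rw [e']; exact h u
  · have : v = σ u := hu
    simp [this]

theorem col2PM_iff (a : CBG) : Col2PM a ↔ ∃ σ τ : Fin a.nU ≃ Fin a.nV,
    (∀ u, (u, σ u) ∈ a.colour1) ∧ (∀ u, (u, τ u) ∈ a.edges) ∧ ∀ u, σ u ≠ τ u := by
  constructor
  · rintro ⟨M₁, M₂, h1, h2, h3, h4⟩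
    obtain ⟨σ, hσ⟩ := pm_equiv h1
    obtain ⟨τ, hτ⟩ := pm_equiv h2
    refine ⟨σ, τ, fun u => h4 ((hσ _ _).2 rfl), fun u => h2.1 ((hτ _ _).2 rfl), fun u e => ?_⟩
    exact Set.disjoint_left.1 h3 ((hσ u _).2 rfl) ((hτ u _).2 e)
  · rintro ⟨σ, τ, h1, h2, h3⟩
    refine ⟨_, _, pm_of_equiv σ fun u => Or.inl (h1 u), pm_of_equiv τ h2, ?_, ?_⟩
    · rw [Set.disjoint_left]
      rintro ⟨u, v⟩ e1 e2
      have e1' : v = σ u := e1
      have e2' : v = τ u := e2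
      exact h3 u (e1'.symm.trans e2')
    · rintro ⟨u, v⟩ e
      have e' : v = σ u := e
      rw [e']; exact h1 u

/-- the input with sides `us` and `vs` (repetitions removed) and edges `e1` of colour 1, `e2` of
colour 2 -/
def mkC {V : Type} [DecidableEq V] (us vs : List V) (e1 e2 : List (V × V)) : CBG :=
  (us.dedup.map fun _ => (), vs.dedup.map fun _ => (),
    e1.map (fun e => (us.dedup.idxOf e.1, vs.dedup.idxOf e.2)),
    e2.map (fun e => (us.dedup.idxOf e.1, vs.dedup.idxOf e.2)))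

@[fun_prop] theorem PT.mkC {α V : Type} [Enc α] [Enc V] [DecidableEq V] {us vs : α → List V}
    {e1 e2 : α → List (V × V)} (h1 : PT us) (h2 : PT vs) (h3 : PT e1) (h4 : PT e2) :
    PT (fun a => mkC (us a) (vs a) (e1 a) (e2 a)) := by unfold Col.mkC; fun_prop

/-- the numbering of a list of names -/
def nm {V : Type} [DecidableEq V] (vs : List V) :
    Fin (vs.dedup.map fun _ => ()).length ≃ {x | x ∈ vs} where
  toFun i := ⟨vs.dedup[i.1]'(by have := i.2; simpa using this),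
    List.mem_dedup.1 (List.getElem_mem _)⟩
  invFun x := ⟨vs.dedup.idxOf x.1, by
    rw [List.length_map]; exact List.idxOf_lt_length_of_mem (List.mem_dedup.2 x.2)⟩
  left_inv i := Fin.ext ((List.nodup_dedup vs).idxOf_getElem _ _)
  right_inv x := Subtype.ext (List.getElem_idxOf _)

theorem idxOf_iff {V : Type} [DecidableEq V] (vs : List V) (x : V)
    (i : Fin (vs.dedup.map fun _ => ()).length) : vs.dedup.idxOf x = i.1 ↔ x = (nm vs i).1 := by
  constructor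
  · intro h
    have hi : i.1 < vs.dedup.length := by have := i.2; simpa using this
    have hx : x ∈ vs := List.mem_dedup.1 (List.idxOf_lt_length_iff.1 (h ▸ hi))
    have : (nm vs).symm ⟨x, hx⟩ = i := Fin.ext h
    rw [← this, Equiv.apply_symm_apply]
  · rintro rfl
    exact congrArg Fin.val ((nm vs).left_inv i)

theorem mem_map_iff {V : Type} [DecidableEq V] (us vs : List V) (es : List (V × V))
    (u : Fin (us.dedup.map fun _ => ()).length) (v : Fin (vs.dedup.map fun _ => ()).length) :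
    (u.1, v.1) ∈ es.map (fun e => (us.dedup.idxOf e.1, vs.dedup.idxOf e.2)) ↔
      ((nm us u).1, (nm vs v).1) ∈ es := by
  simp only [List.mem_map, Prod.mk.injEq, idxOf_iff]
  constructor
  · rintro ⟨⟨a, b⟩, h, rfl, rfl⟩; exact h
  · exact fun h => ⟨_, h, rfl, rfl⟩

/-- COL-2PM for a graph with named vertices -/
theorem col2PM_mkC {V : Type} [DecidableEq V] (us vs : List V) (e1 e2 : List (V × V)) :
    Col2PM (mkC us vs e1 e2) ↔ ∃ σ τ : {x | x ∈ us} ≃ {y | y ∈ vs},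
      (∀ x, (x.1, (σ x).1) ∈ e1) ∧ (∀ x, (x.1, (τ x).1) ∈ e1 ∨ (x.1, (τ x).1) ∈ e2) ∧
      ∀ x, σ x ≠ τ x := by
  rw [col2PM_iff]
  constructor
  · rintro ⟨σ, τ, h1, h2, h3⟩
    refine ⟨((nm us).symm.trans σ).trans (nm vs), ((nm us).symm.trans τ).trans (nm vs),
      fun x => ?_, fun x => ?_, fun x e => h3 ((nm us).symm x) ((nm vs).injective e)⟩
    · have := (mem_map_iff us vs e1 ((nm us).symm x) (σ ((nm us).symm x))).1 (h1 _)
      rw [Equiv.apply_symm_apply] at this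
      exact this
    · have := h2 ((nm us).symm x)
      rcases this with h | h
      · left
        have := (mem_map_iff us vs e1 ((nm us).symm x) (τ ((nm us).symm x))).1 h
        rw [Equiv.apply_symm_apply] at this
        exact this
      · right
        have := (mem_map_iff us vs e2 ((nm us).symm x) (τ ((nm us).symm x))).1 h
        rw [Equiv.apply_symm_apply] at this
        exact this
  · rintro ⟨σ, τ, h1, h2, h3⟩
    refine ⟨((nm us).trans σ).trans (nm vs).symm, ((nm us).trans τ).trans (nm vs).symm,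
      fun u => ?_, fun u => ?_, fun u e => h3 (nm us u) ((nm vs).symm.injective e)⟩
    · refine (mem_map_iff us vs e1 u ((nm vs).symm (σ (nm us u)))).2 ?_
      rw [Equiv.apply_symm_apply]
      exact h1 (nm us u)
    · rcases h2 (nm us u) with h | h
      · left
        refine (mem_map_iff us vs e1 u ((nm vs).symm (τ (nm us u)))).2 ?_
        rw [Equiv.apply_symm_apply]
        exact h
      · right
        refine (mem_map_iff us vs e2 u ((nm vs).symm (τ (nm us u)))).2 ?_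
        rw [Equiv.apply_symm_apply]
        exact h

end Pool.Agent.Zk94.Col

namespace Pool.Agent.Zk94.Col

open Pool.Agent.Lib.CX

variable {V : Type} [DecidableEq V] {us vs : List V} {e1 e2 : List (V × V)}

theorem rel_of (h : Col2PM (mkC us vs e1 e2)) : ∃ R S : V → V → Prop,
    ((∀ u ∈ us, ∃ w, R u w) ∧ (∀ w ∈ vs, ∃ u, R u w) ∧ (∀ u w w', R u w → R u w' → w = w') ∧
      (∀ u u' w, R u w → R u' w → u = u') ∧ ∀ u w, R u w → (u, w) ∈ e1) ∧
    ((∀ u ∈ us, ∃ w, S u w) ∧ (∀ w ∈ vs, ∃ u, S u w) ∧ (∀ u w w', S u w → S u w' → w = w') ∧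
      (∀ u u' w, S u w → S u' w → u = u') ∧ ∀ u w, S u w → (u, w) ∈ e1 ∨ (u, w) ∈ e2) ∧
    ∀ u w, R u w → ¬ S u w := by
  obtain ⟨σ, τ, h1, h2, h3⟩ := (col2PM_mkC _ _ _ _).1 h
  have key : ∀ (ρ : {x | x ∈ us} ≃ {y | y ∈ vs}),
      (∀ u ∈ us, ∃ w, ∃ hu : u ∈ us, (ρ ⟨u, hu⟩).1 = w) ∧
      (∀ w ∈ vs, ∃ u, ∃ hu : u ∈ us, (ρ ⟨u, hu⟩).1 = w) ∧
      (∀ u w w', (∃ hu : u ∈ us, (ρ ⟨u, hu⟩).1 = w) → (∃ hu : u ∈ us, (ρ ⟨u, hu⟩).1 = w') →
        w = w') ∧
      (∀ u u' w, (∃ hu : u ∈ us, (ρ ⟨u, hu⟩).1 = w) → (∃ hu : u' ∈ us, (ρ ⟨u', hu⟩).1 = w) →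
        u = u') := by
    intro ρ
    refine ⟨fun u hu => ⟨_, hu, rfl⟩, fun w hw => ?_, ?_, ?_⟩
    · refine ⟨(ρ.symm ⟨w, hw⟩).1, (ρ.symm ⟨w, hw⟩).2, ?_⟩
      change (ρ (ρ.symm ⟨w, hw⟩)).1 = w
      rw [Equiv.apply_symm_apply]
    · rintro u w w' ⟨hu, rfl⟩ ⟨hu', rfl⟩; rfl
    · rintro u u' w ⟨hu, rfl⟩ ⟨hu', e⟩
      exact (congrArg Subtype.val (ρ.injective (Subtype.ext e))).symm
  refine ⟨fun u w => ∃ hu : u ∈ us, (σ ⟨u, hu⟩).1 = w, fun u w => ∃ hu : u ∈ us, (τ ⟨u, hu⟩).1 = w,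
    ⟨(key σ).1, (key σ).2.1, (key σ).2.2.1, (key σ).2.2.2, ?_⟩,
    ⟨(key τ).1, (key τ).2.1, (key τ).2.2.1, (key τ).2.2.2, ?_⟩, ?_⟩
  · rintro u w ⟨hu, rfl⟩; exact h1 ⟨u, hu⟩
  · rintro u w ⟨hu, rfl⟩; exact h2 ⟨u, hu⟩
  · rintro u w ⟨hu, e⟩ ⟨_, e'⟩
    exact h3 ⟨u, hu⟩ (Subtype.ext (e.trans e'.symm))

theorem of_fun (f f' g g' : V → V) (h1 : ∀ u ∈ us, f u ∈ vs ∧ f' (f u) = u ∧ (u, f u) ∈ e1)
    (h2 : ∀ w ∈ vs, f' w ∈ us ∧ f (f' w) = w)
    (h3 : ∀ u ∈ us, g u ∈ vs ∧ g' (g u) = u ∧ ((u, g u) ∈ e1 ∨ (u, g u) ∈ e2))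
    (h4 : ∀ w ∈ vs, g' w ∈ us ∧ g (g' w) = w) (h5 : ∀ u ∈ us, f u ≠ g u) :
    Col2PM (mkC us vs e1 e2) := by
  rw [col2PM_mkC]
  refine ⟨⟨fun u => ⟨f u.1, (h1 u.1 u.2).1⟩, fun w => ⟨f' w.1, (h2 w.1 w.2).1⟩,
      fun u => Subtype.ext (h1 u.1 u.2).2.1, fun w => Subtype.ext (h2 w.1 w.2).2⟩,
    ⟨fun u => ⟨g u.1, (h3 u.1 u.2).1⟩, fun w => ⟨g' w.1, (h4 w.1 w.2).1⟩,
      fun u => Subtype.ext (h3 u.1 u.2).2.1, fun w => Subtype.ext (h4 w.1 w.2).2⟩,
    fun x => (h1 x.1 x.2).2.2, fun x => (h3 x.1 x.2).2.2, fun x e => ?_⟩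
  exact h5 x.1 x.2 (congrArg Subtype.val e)

end Pool.Agent.Zk94.Col
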