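import Pool.Agent.Zk94.ColRed

/-!
# Correctness of the reduction
-/

set_option autoImplicit false

namespace Pool.Agent.Zk94.Col

open Pool.Agent.Lib.CX

theorem lit_eq (φ : List (Cl3 ℕ)) (i : ℕ) (h : i < 3 * φ.length) :
    lit φ i = litOf (φ[i / 3]'(by omega), i % 3) := by
  induction φ generalizing i with
  | nil => simp at h
  | cons C φ ih =>
    by_cases hi : i < 3
    · have h0 : i / 3 = 0 := by omega
      have : i = 0 ∨ i = 1 ∨ i = 2 := by omega
      rcases this with rfl | rfl | rfl <;> simp [lit, litOf]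
    · obtain ⟨k, rfl⟩ : ∃ k, i = k + 3 := ⟨i - 3, by omega⟩
      have h1 : k < 3 * φ.length := by simp only [List.length_cons] at h; omega
      have h2 := ih k h1
      have h3 : (k + 3) / 3 = k / 3 + 1 := by omega
      have h4 : (k + 3) % 3 = k % 3 := by omega
      have h5 : lit (C :: φ) (k + 3) = lit φ k := by simp [lit]
      rw [h5, h2]
      simp [h3, h4]

theorem sat3_iff (φ : List (Cl3 ℕ)) : Sat3 φ ↔ ∃ v : ℕ → Bool, ∀ j < φ.length,
    ∃ i, i / 3 = j ∧ v (lit φ i).1 = (lit φ i).2 := by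
  refine exists_congr fun v => ?_
  constructor
  · intro h j hj
    obtain ⟨k, hk, e⟩ := (ok_iff v _).1 (h _ (List.getElem_mem hj))
    have h1 : (3 * j + k) / 3 = j := by omega
    refine ⟨3 * j + k, h1, ?_⟩
    rw [lit_eq φ _ (by omega)]
    have h2 : (3 * j + k) % 3 = k := by omega
    simp only [h1, h2]
    exact e
  · intro h C hC
    obtain ⟨j, hj, rfl⟩ := List.getElem_of_mem hC
    obtain ⟨i, h1, h2⟩ := h j hj
    rw [lit_eq φ i (by omega)] at h2
    refine (ok_iff v _).2 ⟨i % 3, Nat.mod_lt _ (by norm_num), ?_⟩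
    subst h1
    exact h2

theorem pair_mem_sprod {α β : Type} {l1 : List α} {l2 : List β} {a : α} {b : β} :
    (a, b) ∈ l1 ×ˢ l2 ↔ a ∈ l1 ∧ b ∈ l2 := List.pair_mem_product

theorem mem_names (φ : List (Cl3 ℕ)) (t x i : ℕ) (h : Bool) : (t, x, i, h) ∈ names φ ↔
    ((t = 0 ∨ t = 1) ∧ x < 3 * φ.length ∧ i < 3 * φ.length) ∨
      (t = 2 ∧ x < φ.length ∧ i = 0 ∧ h = false) := by
  simp only [names, List.mem_append, List.mem_map, List.mem_range]
  rw [pair_mem_sprod, pair_mem_sprod, pair_mem_sprod]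
  simp only [List.mem_range, List.mem_cons, List.not_mem_nil, or_false, Prod.mk.injEq]
  constructor
  · rintro (⟨a, b, c, -⟩ | ⟨j, hj, rfl, rfl, rfl, rfl⟩)
    · exact .inl ⟨a, b, c⟩
    · exact .inr ⟨rfl, hj, rfl, rfl⟩
  · rintro (⟨a, b, c⟩ | ⟨rfl, hj, rfl, rfl⟩)
    · exact .inl ⟨a, b, c, by cases h <;> simp⟩
    · exact .inr ⟨x, hj, rfl, rfl, rfl, rfl⟩

theorem mem_E1 (φ : List (Cl3 ℕ)) (e : Nm × Nm) : e ∈ E1 φ ↔
    (∃ x < 3 * φ.length, ∃ i < 3 * φ.length, e ∈ edg1 (3 * φ.length) x i) ∨
      ∃ j < φ.length, e = ((2, j, 0, false), (2, j, 0, false)) := by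
  simp only [E1, List.mem_append, List.mem_flatMap, List.mem_range, List.mem_map, eq_comm]

theorem mem_E2 (φ : List (Cl3 ℕ)) (e : Nm × Nm) : e ∈ E2 φ ↔
    ∃ x < 3 * φ.length, ∃ i < 3 * φ.length, e ∈ edg2 φ x i := by
  simp only [E2, List.mem_flatMap, List.mem_range]

section E
variable {φ : List (Cl3 ℕ)} {x i j : ℕ} {w u : Nm} {h : Bool}

theorem E1_At (H : (((0, x, i, true) : Nm), w) ∈ E1 φ) :
    w = (0, x, i, true) ∨ w = (0, x, i, false) := by
  rw [mem_E1] at H
  rcases H with ⟨x', -, i', -, H⟩ | ⟨j, -, H⟩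
  · simp only [edg1, List.mem_cons, List.not_mem_nil, or_false, Prod.mk.injEq] at H
    simp at H
    rcases H with ⟨⟨rfl, rfl⟩, H⟩ | ⟨⟨rfl, rfl⟩, H⟩
    · exact .inl H
    · exact .inr H
  · simp at H

theorem E1_Af (H : (((0, x, i, false) : Nm), w) ∈ E1 φ) :
    w = (0, x, i, false) ∨ ∃ k < 3 * φ.length, (k + 1) % (3 * φ.length) = i ∧ w = (0, x, k, true) := by
  rw [mem_E1] at H
  rcases H with ⟨x', -, i', hi', H⟩ | ⟨j, -, H⟩
  · simp only [edg1, List.mem_cons, List.not_mem_nil, or_false, Prod.mk.injEq] at H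
    simp at H
    rcases H with ⟨⟨rfl, rfl⟩, H⟩ | ⟨⟨rfl, rfl⟩, H⟩
    · exact .inl H
    · exact .inr ⟨i', hi', rfl, H⟩
  · simp at H

theorem E1_B' (H : (((1, x, i, h) : Nm), w) ∈ E1 φ) : w = (1, x, i, h) := by
  rw [mem_E1] at H
  rcases H with ⟨x', -, i', hi', H⟩ | ⟨j, -, H⟩
  · simp only [edg1, List.mem_cons, List.not_mem_nil, or_false, Prod.mk.injEq] at H
    simp at H
    rcases H with ⟨⟨rfl, rfl, rfl⟩, H⟩ | ⟨⟨rfl, rfl, rfl⟩, H⟩ <;> exact H
  · simp at H

theorem E1_P (H : (((2, x, i, h) : Nm), w) ∈ E1 φ) : w = (2, x, i, h) := by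
  rw [mem_E1] at H
  rcases H with ⟨x', -, i', hi', H⟩ | ⟨j, -, H⟩
  · simp only [edg1, List.mem_cons, List.not_mem_nil, or_false, Prod.mk.injEq] at H
    simp at H
  · simp only [Prod.mk.injEq] at H
    obtain ⟨⟨-, rfl, rfl, rfl⟩, H⟩ := H
    exact H

theorem E1_Bt (H : (u, ((0, x, i, true) : Nm)) ∈ E1 φ) :
    u = (0, x, i, true) ∨ u = (0, x, (i + 1) % (3 * φ.length), false) := by
  rw [mem_E1] at H
  rcases H with ⟨x', -, i', -, H⟩ | ⟨j, -, H⟩
  · simp only [edg1, List.mem_cons, List.not_mem_nil, or_false, Prod.mk.injEq] at H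
    simp at H
    rcases H with ⟨H, rfl, rfl⟩ | ⟨H, rfl, rfl⟩
    · exact .inl H
    · exact .inr H
  · simp at H

theorem E1_Bf (H : (u, ((0, x, i, false) : Nm)) ∈ E1 φ) :
    u = (0, x, i, false) ∨ u = (0, x, i, true) := by
  rw [mem_E1] at H
  rcases H with ⟨x', -, i', -, H⟩ | ⟨j, -, H⟩
  · simp only [edg1, List.mem_cons, List.not_mem_nil, or_false, Prod.mk.injEq] at H
    simp at H
    rcases H with ⟨H, rfl, rfl⟩ | ⟨H, rfl, rfl⟩
    · exact .inl H
    · exact .inr H
  · simp at H

theorem E2_B't (H : (((1, x, i, true) : Nm), w) ∈ E2 φ) : w = (0, x, i, true) := by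
  rw [mem_E2] at H
  obtain ⟨x', -, i', -, H⟩ := H
  unfold edg2 at H
  split_ifs at H <;>
    simp only [List.mem_append, List.mem_cons, List.not_mem_nil, or_false, Prod.mk.injEq] at H <;>
    simp at H <;>
    · obtain ⟨⟨rfl, rfl⟩, H⟩ := H
      exact H

theorem E2_A (H : (((0, x, i, h) : Nm), w) ∈ E2 φ) :
    w = (1, x, i, if lit φ i = (x, true) then !h else h) := by
  rw [mem_E2] at H
  obtain ⟨x', -, i', -, H⟩ := H
  unfold edg2 at H
  split_ifs at H with h1 h2 h2 <;>
    simp only [List.mem_append, List.mem_cons, List.not_mem_nil, or_false, Prod.mk.injEq] at H <;>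
    simp at H <;>
    · rcases H with ⟨⟨rfl, rfl, rfl⟩, H⟩ | ⟨⟨rfl, rfl, rfl⟩, H⟩ <;> simp [H, h1]

theorem E2_P (H : (((2, j, i, h) : Nm), w) ∈ E2 φ) :
    ∃ k < 3 * φ.length, k / 3 = j ∧ (lit φ k).1 < 3 * φ.length ∧ w = (1, (lit φ k).1, k, false) := by
  rw [mem_E2] at H
  obtain ⟨x', hx', i', hi', H⟩ := H
  unfold edg2 at H
  split_ifs at H with h1 h2 h2 <;>
    simp only [List.mem_append, List.mem_cons, List.not_mem_nil, or_false, Prod.mk.injEq] at H <;>
    simp at H
  · obtain ⟨⟨rfl, rfl, rfl⟩, H⟩ := H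
    exact ⟨i', hi', rfl, by rw [h2]; exact hx', by rw [h2]; exact H⟩
  · obtain ⟨⟨rfl, rfl, rfl⟩, H⟩ := H
    exact ⟨i', hi', rfl, by rw [h2]; exact hx', by rw [h2]; exact H⟩

end E

theorem sat_of_col (φ : List (Cl3 ℕ)) (H : Col2PM (redC φ)) : Sat3 φ := by
  classical
  obtain ⟨R, S, ⟨r1, r2, r3, r4, r5⟩, ⟨s1, s2, s3, s4, s5⟩, rs⟩ := rel_of H
  rw [sat3_iff]
  set N := 3 * φ.length with hN
  have nA : ∀ t x i h, (t = 0 ∨ t = 1) → x < N → i < N → ((t, x, i, h) : Nm) ∈ names φ :=
    fun t x i h ht hx hi => (mem_names φ t x i h).2 (.inl ⟨ht, hx, hi⟩)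
  -- the first matching on the cycle of a variable
  have step : ∀ x < N, ∀ i, i + 1 < N →
      (R (0, x, i, false) (0, x, i, false) ↔ R (0, x, i + 1, false) (0, x, i + 1, false)) := by
    intro x hx i hi
    have hm : (i + 1) % N = i + 1 := Nat.mod_eq_of_lt hi
    constructor
    · intro h
      obtain ⟨w, hw⟩ := r1 _ (nA 0 x i true (.inl rfl) hx (by omega))
      have hw' : w = (0, x, i, true) := by
        rcases E1_At (r5 _ _ hw) with e | e
        · exact e
        · rw [e] at hw
          have := r4 _ _ _ h hw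
          simp at this
      obtain ⟨z, hz⟩ := r1 _ (nA 0 x (i + 1) false (.inl rfl) hx hi)
      rcases E1_Af (r5 _ _ hz) with e | ⟨k, hk, e1, e2⟩
      · rwa [e] at hz
      · exfalso
        have : k = i := by
          rcases Nat.lt_or_ge (k + 1) N with h' | h'
          · rw [Nat.mod_eq_of_lt h'] at e1; omega
          · have : k + 1 = N := by omega
            rw [this, Nat.mod_self] at e1; omega
        subst this
        rw [hw'] at hw
        rw [e2] at hz
        have := r4 _ _ _ hw hz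
        simp at this
    · intro h
      obtain ⟨u, hu⟩ := r2 _ (nA 0 x i true (.inl rfl) hx (by omega))
      have hu' : u = (0, x, i, true) := by
        rcases E1_Bt (r5 _ _ hu) with e | e
        · exact e
        · rw [e, ← hN, hm] at hu
          have := r3 _ _ _ h hu
          simp at this
      obtain ⟨z, hz⟩ := r2 _ (nA 0 x i false (.inl rfl) hx (by omega))
      rcases E1_Bf (r5 _ _ hz) with e | e
      · rwa [e] at hz
      · exfalso
        rw [hu'] at hu
        rw [e] at hz
        have := r3 _ _ _ hu hz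
        simp at this
  have all : ∀ x < N, ∀ i < N,
      (R (0, x, i, false) (0, x, i, false) ↔ R (0, x, 0, false) (0, x, 0, false)) := by
    intro x hx i
    induction i with
    | zero => intro _; rfl
    | succ i ih => intro hi; rw [← step x hx i hi]; exact ih (by omega)
  refine ⟨fun x => decide (R (0, x, 0, false) (0, x, 0, false)), fun j hj => ?_⟩
  -- the second matching at the clause
  obtain ⟨w, hw⟩ := s1 (2, j, 0, false) ((mem_names φ _ _ _ _).2 (.inr ⟨rfl, hj, rfl, rfl⟩))
  obtain ⟨w', hw'⟩ := r1 (2, j, 0, false) ((mem_names φ _ _ _ _).2 (.inr ⟨rfl, hj, rfl, rfl⟩))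
  have hwe : (((2, j, 0, false) : Nm), w) ∈ E2 φ := by
    rcases s5 _ _ hw with h | h
    · exfalso
      have e1 := E1_P h
      have e2 := E1_P (r5 _ _ hw')
      rw [e1] at hw; rw [e2] at hw'
      exact rs _ _ hw' hw
    · exact h
  obtain ⟨k, hk, hkj, hx, rfl⟩ := E2_P hwe
  refine ⟨k, hkj, ?_⟩
  -- all `B' x i true` are matched to `B x i true` by the second matching
  have forced : ∀ x < N, ∀ i < N, S (1, x, i, true) (0, x, i, true) := by
    intro x hx i hi
    obtain ⟨z, hz⟩ := s1 _ (nA 1 x i true (.inr rfl) hx hi)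
    obtain ⟨z', hz'⟩ := r1 _ (nA 1 x i true (.inr rfl) hx hi)
    rcases s5 _ _ hz with h | h
    · exfalso
      have e1 := E1_B' h
      have e2 := E1_B' (r5 _ _ hz')
      rw [e1] at hz; rw [e2] at hz'
      exact rs _ _ hz' hz
    · rwa [E2_B't h] at hz
  set x := (lit φ k).1 with hxdef
  change decide (R (0, x, 0, false) (0, x, 0, false)) = (lit φ k).2
  rw [show decide (R (0, x, 0, false) (0, x, 0, false)) =
    decide (R (0, x, k, false) (0, x, k, false)) from decide_eq_decide.2 (all x hx k hk).symm]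
  cases hb : (lit φ k).2 with
  | true =>
    have hl : lit φ k = (x, true) := Prod.ext rfl hb
    obtain ⟨z, hz⟩ := s1 _ (nA 0 x k true (.inl rfl) hx hk)
    have hz1 : z = (0, x, k, false) := by
      rcases s5 _ _ hz with h | h
      · rcases E1_At h with e | e
        · rw [e] at hz
          have := s4 _ _ _ hz (forced x hx k hk)
          simp at this
        · exact e
      · have e := E2_A h
        rw [if_pos hl] at e
        rw [e] at hz
        have := s4 _ _ _ hz hw
        simp at this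
    rw [hz1] at hz
    obtain ⟨u, hu⟩ := r2 _ (nA 0 x k false (.inl rfl) hx hk)
    rcases E1_Bf (r5 _ _ hu) with e | e
    · rw [e] at hu; simpa using hu
    · rw [e] at hu; exact absurd hz (rs _ _ hu)
  | false =>
    have hl : ¬ lit φ k = (x, true) := fun e => by rw [e] at hb; simp at hb
    obtain ⟨z, hz⟩ := s1 _ (nA 0 x k false (.inl rfl) hx hk)
    have hz1 : z = (0, x, k, false) := by
      rcases s5 _ _ hz with h | h
      · rcases E1_Af h with e | ⟨k', hk', e1, e2⟩
        · exact e
        · rw [e2] at hz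
          have := s4 _ _ _ hz (forced x hx k' hk')
          simp at this
      · have e := E2_A h
        rw [if_neg hl] at e
        rw [e] at hz
        have := s4 _ _ _ hz hw
        simp at this
    rw [hz1] at hz
    have : ¬ R (0, x, k, false) (0, x, k, false) := fun h => rs _ _ h hz
    simpa using this

/-! ### From a satisfying assignment to the matchings -/

section back

variable (φ : List (Cl3 ℕ)) (v : ℕ → Bool) (ch : ℕ → ℕ)

/-- the first matching, from `U` to `V` -/
def fF : Nm → Nm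
  | (0, x, i, h) => if v x = true then (0, x, i, h) else
      if h = true then (0, x, i, false) else (0, x, (i + (3 * φ.length - 1)) % (3 * φ.length), true)
  | u => u

/-- the first matching, from `V` to `U` -/
def fG : Nm → Nm
  | (0, x, i, h) => if v x = true then (0, x, i, h) else
      if h = true then (0, x, (i + 1) % (3 * φ.length), false) else (0, x, i, true)
  | u => u

/-- the literal number `i` is chosen, and it is about the variable `x` -/
def sel (x i : ℕ) : Bool := decide (ch (i / 3) = i ∧ (lit φ i).1 = x)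

/-- the second matching, from `U` to `V` -/
def gF : Nm → Nm
  | (0, x, i, h) => if sel φ ch x i = true ∧ h = (lit φ i).2 then (0, x, i, false) else
      (1, x, i, if lit φ i = (x, true) then !h else h)
  | (1, x, i, h) => if sel φ ch x i = true ∧ h = false then (2, i / 3, 0, false) else (0, x, i, h)
  | (2, j, _, _) => (1, (lit φ (ch j)).1, ch j, false)
  | u => u

/-- the second matching, from `V` to `U` -/
def gG : Nm → Nm
  | (0, x, i, h) => if sel φ ch x i = true ∧ h = false then (0, x, i, (lit φ i).2) else (1, x, i, h)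
  | (1, x, i, h) => if sel φ ch x i = true ∧ h = false then (2, i / 3, 0, false) else
      (0, x, i, if lit φ i = (x, true) then !h else h)
  | (2, j, _, _) => (1, (lit φ (ch j)).1, ch j, false)
  | u => u

end back

theorem col_of_sat (φ : List (Cl3 ℕ)) (hφ : ∀ C ∈ φ, ∀ x ∈ C.vars, x < 3 * φ.length)
    (H : Sat3 φ) : Col2PM (redC φ) := by
  obtain ⟨v, hv⟩ := (sat3_iff φ).1 H
  choose! ch h1 h2 using hv
  set N := 3 * φ.length with hN
  have hlt : ∀ i < N, (lit φ i).1 < N := by
    intro i hi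
    rw [lit_eq φ i hi]
    have := hφ _ (List.getElem_mem (show i / 3 < φ.length by omega))
    simp only [Cl3.vars, List.forall_mem_cons] at this
    have h3 : i % 3 = 0 ∨ i % 3 = 1 ∨ i % 3 = 2 := by omega
    rcases h3 with h3 | h3 | h3 <;> simp only [h3, litOf] <;> simp [this]
  have hch : ∀ j < φ.length, ch j < N := fun j hj => by have := h1 j hj; omega
  have mN : ∀ t x i h, (t, x, i, h) ∈ names φ ↔
    ((t = 0 ∨ t = 1) ∧ x < N ∧ i < N) ∨ (t = 2 ∧ x < φ.length ∧ i = 0 ∧ h = false) :=
    fun t x i h => mem_names φ t x i h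
  have m1 : ∀ e, e ∈ E1 φ ↔ (∃ x < N, ∃ i < N, e ∈ edg1 N x i) ∨
      ∃ j < φ.length, e = ((2, j, 0, false), (2, j, 0, false)) := mem_E1 φ
  have m2 : ∀ e, e ∈ E2 φ ↔ ∃ x < N, ∃ i < N, e ∈ edg2 φ x i := mem_E2 φ
  have mod1 : ∀ i < N, (i + (N - 1)) % N < N ∧ ((i + (N - 1)) % N + 1) % N = i := by
    intro i hi
    refine ⟨Nat.mod_lt _ (by omega), ?_⟩
    rw [Nat.mod_add_mod, show i + (N - 1) + 1 = i + N by omega, Nat.add_mod_right,
      Nat.mod_eq_of_lt hi]
  have mod2 : ∀ i < N, (i + 1) % N < N ∧ ((i + 1) % N + (N - 1)) % N = i := by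
    intro i hi
    refine ⟨Nat.mod_lt _ (by omega), ?_⟩
    rw [Nat.mod_add_mod, show i + 1 + (N - 1) = i + N by omega, Nat.add_mod_right,
      Nat.mod_eq_of_lt hi]
  have hsel : ∀ x i, sel φ ch x i = true ↔ ch (i / 3) = i ∧ (lit φ i).1 = x := by
    intro x i; simp [sel]
  refine of_fun (fF φ v) (fG φ v) (gF φ ch) (gG φ ch) ?_ ?_ ?_ ?_ ?_
  · rintro ⟨t, x, i, h⟩ hu
    rcases (mN _ _ _ _).1 hu with ⟨rfl | rfl, hx, hi⟩ | ⟨rfl, hx, rfl, rfl⟩
    · have e0 : fF φ v (0, x, i, h) = if v x = true then (0, x, i, h) else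
        if h = true then (0, x, i, false) else (0, x, (i + (N - 1)) % N, true) := rfl
      rw [e0]
      split_ifs with a b
      · refine ⟨hu, ?_, ?_⟩
        · simp [fG, a]
        · rw [m1]
          left
          exact ⟨x, hx, i, hi, by cases h <;> simp [edg1]⟩
      · subst b
        refine ⟨(mN _ _ _ _).2 (.inl ⟨.inl rfl, hx, hi⟩), ?_, ?_⟩
        · simp [fG, a]
        · rw [m1]
          left
          exact ⟨x, hx, i, hi, by simp [edg1]⟩
      · obtain ⟨q1, q2⟩ := mod1 i hi
        have b' : h = false := by simpa using b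
        subst b'
        refine ⟨(mN _ _ _ _).2 (.inl ⟨.inl rfl, hx, q1⟩), ?_, ?_⟩
        · have : fG φ v (0, x, (i + (N - 1)) % N, true) = if v x = true then
            (0, x, (i + (N - 1)) % N, true) else (0, x, ((i + (N - 1)) % N + 1) % N, false) := rfl
          rw [this, if_neg a, q2]
        · rw [m1]
          left
          exact ⟨x, hx, _, q1, by simp [edg1, q2]⟩
    · refine ⟨hu, rfl, ?_⟩
      rw [m1]
      left
      refine ⟨x, hx, i, hi, ?_⟩
      change ((1, x, i, h), (1, x, i, h)) ∈ _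
      cases h <;> simp [edg1]
    · refine ⟨hu, rfl, ?_⟩
      rw [m1]
      right
      exact ⟨x, hx, rfl⟩
  · rintro ⟨t, x, i, h⟩ hu
    rcases (mN _ _ _ _).1 hu with ⟨rfl | rfl, hx, hi⟩ | ⟨rfl, hx, rfl, rfl⟩
    · have e0 : fG φ v (0, x, i, h) = if v x = true then (0, x, i, h) else
        if h = true then (0, x, (i + 1) % N, false) else (0, x, i, true) := rfl
      rw [e0]
      split_ifs with a b
      · exact ⟨hu, by simp [fF, a]⟩
      · obtain ⟨q1, q2⟩ := mod2 i hi
        subst b
        refine ⟨(mN _ _ _ _).2 (.inl ⟨.inl rfl, hx, q1⟩), ?_⟩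
        have : fF φ v (0, x, (i + 1) % N, false) = if v x = true then
          (0, x, (i + 1) % N, false) else (0, x, ((i + 1) % N + (N - 1)) % N, true) := rfl
        rw [this, if_neg a, q2]
      · have b' : h = false := by simpa using b
        subst b'
        exact ⟨(mN _ _ _ _).2 (.inl ⟨.inl rfl, hx, hi⟩), by simp [fF, a]⟩
    · exact ⟨hu, rfl⟩
    · exact ⟨hu, rfl⟩
  · rintro ⟨t, x, i, h⟩ hu
    rcases (mN _ _ _ _).1 hu with ⟨rfl | rfl, hx, hi⟩ | ⟨rfl, hx, rfl, rfl⟩
    · have e0 : gF φ ch (0, x, i, h) = if sel φ ch x i = true ∧ h = (lit φ i).2 then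
        (0, x, i, false) else (1, x, i, if lit φ i = (x, true) then !h else h) := rfl
      rw [e0]
      split_ifs with a b
      · refine ⟨(mN _ _ _ _).2 (.inl ⟨.inl rfl, hx, hi⟩), ?_, ?_⟩
        · simp [gG, a.1, a.2]
        · left
          rw [m1]
          left
          exact ⟨x, hx, i, hi, by cases h <;> simp [edg1]⟩
      · refine ⟨(mN _ _ _ _).2 (.inl ⟨.inr rfl, hx, hi⟩), ?_, ?_⟩
        · have : ¬ (sel φ ch x i = true ∧ (!h) = false) := by
            rintro ⟨c1, c2⟩
            have c3 : h = true := by simpa using c2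
            exact a ⟨c1, by rw [c3, b]⟩
          have e1 : gG φ ch (1, x, i, !h) = if sel φ ch x i = true ∧ (!h) = false then
            (2, i / 3, 0, false) else (0, x, i, if lit φ i = (x, true) then !(!h) else !h) := rfl
          rw [e1, if_neg this, if_pos b, Bool.not_not]
        · right
          rw [m2]
          exact ⟨x, hx, i, hi, by cases h <;> simp [edg2, b]⟩
      · refine ⟨(mN _ _ _ _).2 (.inl ⟨.inr rfl, hx, hi⟩), ?_, ?_⟩
        · have : ¬ (sel φ ch x i = true ∧ h = false) := by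
            rintro ⟨c1, c2⟩
            have c3 : (lit φ i).2 = false := by
              by_contra c4
              exact b (Prod.ext ((hsel _ _).1 c1).2 (by simpa using c4))
            exact a ⟨c1, by rw [c2, c3]⟩
          have e1 : gG φ ch (1, x, i, h) = if sel φ ch x i = true ∧ h = false then
            (2, i / 3, 0, false) else (0, x, i, if lit φ i = (x, true) then !h else h) := rfl
          rw [e1, if_neg this, if_neg b]
        · right
          rw [m2]
          exact ⟨x, hx, i, hi, by cases h <;> simp [edg2, b]⟩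
    · have e0 : gF φ ch (1, x, i, h) = if sel φ ch x i = true ∧ h = false then
        (2, i / 3, 0, false) else (0, x, i, h) := rfl
      rw [e0]
      split_ifs with a
      · obtain ⟨a1, rfl⟩ := a
        have a2 := (hsel _ _).1 a1
        refine ⟨(mN _ _ _ _).2 (.inr ⟨rfl, by omega, rfl, rfl⟩), ?_, ?_⟩
        · change (1, (lit φ (ch (i / 3))).1, ch (i / 3), false) = (1, x, i, false)
          rw [a2.1, a2.2]
        · right
          rw [m2]
          exact ⟨x, hx, i, hi, by simp [edg2, a2.2]⟩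
      · refine ⟨(mN _ _ _ _).2 (.inl ⟨.inl rfl, hx, hi⟩), ?_, ?_⟩
        · have e1 : gG φ ch (0, x, i, h) = if sel φ ch x i = true ∧ h = false then
            (0, x, i, (lit φ i).2) else (1, x, i, h) := rfl
          rw [e1, if_neg a]
        · right
          rw [m2]
          exact ⟨x, hx, i, hi, by cases h <;> simp [edg2]⟩
    · have c1 := hch x hx
      have c2 := h1 x hx
      have c3 := hlt _ c1
      have c4 : sel φ ch (lit φ (ch x)).1 (ch x) = true := (hsel _ _).2 ⟨by rw [c2], rfl⟩
      refine ⟨(mN _ _ _ _).2 (.inl ⟨.inr rfl, c3, c1⟩), ?_, ?_⟩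
      · have e1 : gG φ ch (gF φ ch (2, x, 0, false)) =
          if sel φ ch (lit φ (ch x)).1 (ch x) = true ∧ false = false then
          (2, ch x / 3, 0, false) else _ := rfl
        rw [e1, if_pos ⟨c4, rfl⟩, c2]
      · right
        rw [m2]
        refine ⟨_, c3, _, c1, ?_⟩
        change ((2, x, 0, false), (1, (lit φ (ch x)).1, ch x, false)) ∈ _
        simp [edg2, c2]
  · rintro ⟨t, x, i, h⟩ hu
    rcases (mN _ _ _ _).1 hu with ⟨rfl | rfl, hx, hi⟩ | ⟨rfl, hx, rfl, rfl⟩
    · have e0 : gG φ ch (0, x, i, h) = if sel φ ch x i = true ∧ h = false then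
            (0, x, i, (lit φ i).2) else (1, x, i, h) := rfl
      rw [e0]
      split_ifs with a
      · refine ⟨(mN _ _ _ _).2 (.inl ⟨.inl rfl, hx, hi⟩), ?_⟩
        simp [gF, a.1, a.2]
      · refine ⟨(mN _ _ _ _).2 (.inl ⟨.inr rfl, hx, hi⟩), ?_⟩
        have e1 : gF φ ch (1, x, i, h) = if sel φ ch x i = true ∧ h = false then
          (2, i / 3, 0, false) else (0, x, i, h) := rfl
        rw [e1, if_neg a]
    · have e0 : gG φ ch (1, x, i, h) = if sel φ ch x i = true ∧ h = false then
            (2, i / 3, 0, false) else (0, x, i, if lit φ i = (x, true) then !h else h) := rfl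
      rw [e0]
      split_ifs with a b
      · obtain ⟨a1, rfl⟩ := a
        have a2 := (hsel _ _).1 a1
        refine ⟨(mN _ _ _ _).2 (.inr ⟨rfl, by omega, rfl, rfl⟩), ?_⟩
        change (1, (lit φ (ch (i / 3))).1, ch (i / 3), false) = (1, x, i, false)
        rw [a2.1, a2.2]
      · refine ⟨(mN _ _ _ _).2 (.inl ⟨.inl rfl, hx, hi⟩), ?_⟩
        have e1 : gF φ ch (0, x, i, !h) = if sel φ ch x i = true ∧ (!h) = (lit φ i).2 then
          (0, x, i, false) else (1, x, i, if lit φ i = (x, true) then !(!h) else !h) := rfl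
        have : ¬ (sel φ ch x i = true ∧ (!h) = (lit φ i).2) := by
          rintro ⟨c1, c2⟩
          rw [b] at c2
          exact a ⟨c1, by simpa using c2⟩
        rw [e1, if_neg this, if_pos b, Bool.not_not]
      · refine ⟨(mN _ _ _ _).2 (.inl ⟨.inl rfl, hx, hi⟩), ?_⟩
        have e1 : gF φ ch (0, x, i, h) = if sel φ ch x i = true ∧ h = (lit φ i).2 then
          (0, x, i, false) else (1, x, i, if lit φ i = (x, true) then !h else h) := rfl
        have : ¬ (sel φ ch x i = true ∧ h = (lit φ i).2) := by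
          rintro ⟨c1, c2⟩
          have c3 : (lit φ i).2 = false := by
            by_contra c4
            exact b (Prod.ext ((hsel _ _).1 c1).2 (by simpa using c4))
          exact a ⟨c1, by rw [c2, c3]⟩
        rw [e1, if_neg this, if_neg b]
    · have c1 := hch x hx
      have c2 := h1 x hx
      have c3 := hlt _ c1
      have c4 : sel φ ch (lit φ (ch x)).1 (ch x) = true := (hsel _ _).2 ⟨by rw [c2], rfl⟩
      refine ⟨(mN _ _ _ _).2 (.inl ⟨.inr rfl, c3, c1⟩), ?_⟩
      have e1 : gF φ ch (gG φ ch (2, x, 0, false)) =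
          if sel φ ch (lit φ (ch x)).1 (ch x) = true ∧ false = false then
          (2, ch x / 3, 0, false) else _ := rfl
      rw [e1, if_pos ⟨c4, rfl⟩, c2]
  · rintro ⟨t, x, i, h⟩ hu
    rcases (mN _ _ _ _).1 hu with ⟨rfl | rfl, hx, hi⟩ | ⟨rfl, hx, rfl, rfl⟩
    · have e0 : gF φ ch (0, x, i, h) = if sel φ ch x i = true ∧ h = (lit φ i).2 then
        (0, x, i, false) else (1, x, i, if lit φ i = (x, true) then !h else h) := rfl
      have e1 : fF φ v (0, x, i, h) = if v x = true then (0, x, i, h) else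
        if h = true then (0, x, i, false) else (0, x, (i + (N - 1)) % N, true) := rfl
      rw [e0, e1]
      by_cases a : sel φ ch x i = true ∧ h = (lit φ i).2
      · rw [if_pos a]
        obtain ⟨a1, a2⟩ := a
        obtain ⟨a3, a4⟩ := (hsel _ _).1 a1
        have a5 := h2 (i / 3) (by omega)
        rw [a3, a4] at a5
        cases h with
        | true => rw [a5, ← a2]; simp
        | false => rw [a5, ← a2]; simp
      · rw [if_neg a]
        split_ifs <;> simp
    · have e0 : gF φ ch (1, x, i, h) = if sel φ ch x i = true ∧ h = false then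
        (2, i / 3, 0, false) else (0, x, i, h) := rfl
      rw [e0]
      change (1, x, i, h) ≠ _
      split_ifs <;> simp
    · change ((2, x, 0, false) : Nm) ≠ (1, (lit φ (ch x)).1, ch x, false)
      simp

/-- COL-2PM is NP-hard -/
theorem col_hard : NPHard Col2PM :=
  NPHard.of_sat3 redC PT.redC fun φ hφ => ⟨col_of_sat φ hφ, sat_of_col φ⟩

end Pool.Agent.Zk94.Col
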