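import Pool.Agent.Zk94.ColCor

/-!
# COL-2PM is in NP
-/

set_option autoImplicit false

namespace Pool.Agent.Zk94.Col

open Pool.Agent.Lib.CX

theorem equiv_of {n m : ℕ} (e : n = m) (F : List ℕ) (h1 : ∀ i < n, F.getD i 0 < m)
    (h2 : ∀ i < n, ∀ j < n, F.getD i 0 = F.getD j 0 → i = j) :
    ∃ σ : Fin n ≃ Fin m, ∀ i, (σ i).1 = F.getD i.1 0 := by
  subst e
  have inj : Function.Injective fun i : Fin n => (⟨F.getD i.1 0, h1 i.1 i.2⟩ : Fin n) :=
    fun i j e => Fin.ext (h2 i.1 i.2 j.1 j.2 (congrArg Fin.val e))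
  exact ⟨Equiv.ofBijective _ (Finite.injective_iff_bijective.1 inj), fun i => rfl⟩

theorem getD_map_finRange {n : ℕ} (f : Fin n → ℕ) (i : ℕ) (hi : i < n) :
    ((List.finRange n).map f).getD i 0 = f ⟨i, hi⟩ := by
  rw [List.getD_eq_getElem _ _ (by simpa using hi)]
  simp

theorem col_np : InNP Col2PM := by
  refine InNP.of_cert' (fun (a : CBG) (c : List ℕ × List ℕ) => a.nU = a.nV ∧
    ((∀ i < a.nU, c.1.getD i 0 < a.nV ∧ (i, c.1.getD i 0) ∈ a.2.2.1) ∧
      ∀ i < a.nU, ∀ j < a.nU, c.1.getD i 0 = c.1.getD j 0 → i = j) ∧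
    ((∀ i < a.nU, c.2.getD i 0 < a.nV ∧ ((i, c.2.getD i 0) ∈ a.2.2.1 ∨ (i, c.2.getD i 0) ∈ a.2.2.2)) ∧
      ∀ i < a.nU, ∀ j < a.nU, c.2.getD i 0 = c.2.getD j 0 → i = j) ∧
    ∀ i < a.nU, c.1.getD i 0 ≠ c.2.getD i 0)
    (fun a => (a.nU * (3 * a.nV + 3) + 2) + (a.nU * (3 * a.nV + 3) + 2) + 1)
    (by fun_prop) (by fun_prop) ?_ ?_
  · rintro a ⟨F, G⟩ ⟨h0, ⟨h1, h2⟩, ⟨h3, h4⟩, h5⟩
    rw [col2PM_iff]
    obtain ⟨σ, hσ⟩ := equiv_of h0 F (fun i hi => (h1 i hi).1) h2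
    obtain ⟨τ, hτ⟩ := equiv_of h0 G (fun i hi => (h3 i hi).1) h4
    refine ⟨σ, τ, fun u => ?_, fun u => ?_, fun u e => ?_⟩
    · have := (h1 u.1 u.2).2
      dsimp only at this
      rw [← hσ] at this
      exact this
    · have := (h3 u.1 u.2).2
      dsimp only at this
      rw [← hτ] at this
      exact this
    · apply h5 u.1 u.2
      dsimp only
      rw [← hσ, ← hτ, e]
  · intro a ha
    obtain ⟨σ, τ, h1, h2, h3⟩ := (col2PM_iff a).1 ha
    have hn : a.nU = a.nV := by simpa using Fintype.card_congr σ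
    have sz : ∀ ρ : Fin a.nU ≃ Fin a.nV,
        size ((List.finRange a.nU).map fun i => (ρ i).1) ≤ a.nU * (3 * a.nV + 3) + 2 := by
      intro ρ
      refine (size_list_le (B := 3 * a.nV + 2) fun x hx => ?_).trans (by simp)
      obtain ⟨i, -, rfl⟩ := List.mem_map.1 hx
      exact (size_nat_le _).trans (by have := (ρ i).2; omega)
    refine ⟨((List.finRange a.nU).map fun i => (σ i).1, (List.finRange a.nU).map fun i => (τ i).1),
      ?_, hn, ⟨fun i hi => ?_, fun i hi j hj e => ?_⟩, ⟨fun i hi => ?_, fun i hi j hj e => ?_⟩,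
      fun i hi e => ?_⟩
    · rw [size_pair]
      have := sz σ
      have := sz τ
      omega
    · dsimp only
      rw [getD_map_finRange _ i hi]
      exact ⟨(σ _).2, h1 ⟨i, hi⟩⟩
    · dsimp only at e
      rw [getD_map_finRange _ i hi, getD_map_finRange _ j hj] at e
      exact congrArg Fin.val (σ.injective (Fin.ext e))
    · dsimp only
      rw [getD_map_finRange _ i hi]
      exact ⟨(τ _).2, h2 ⟨i, hi⟩⟩
    · dsimp only at e
      rw [getD_map_finRange _ i hi, getD_map_finRange _ j hj] at e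
      exact congrArg Fin.val (τ.injective (Fin.ext e))
    · dsimp only at e
      rw [getD_map_finRange _ i hi, getD_map_finRange _ i hi] at e
      exact h3 ⟨i, hi⟩ (Fin.ext e)

end Pool.Agent.Zk94.Col
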