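import Pool.Agent.Zk94.Col

/-!
# The reduction of 3-SAT to COL-2PM

For a formula with `m` clauses put `N = 3 m`; the literal number `i < N` belongs to the clause
`i / 3`. Names of vertices are `(t, x, i, h)`. On the side `U` they are `A x i h` (`t = 0`),
`B' x i h` (`t = 1`) and `P j` (`t = 2`), on the side `V` they are `B x i h` (`t = 0`), `A' x i h`
(`t = 1`) and `Q j` (`t = 2`), for the variables `x < N`, the numbers `i < N`, `h` a bit and the
clauses `j < m`.
-/

set_option autoImplicit false

namespace Pool.Agent.Zk94.Col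

open Pool.Agent.Lib.CX

/-- names of vertices -/
abbrev Nm := ℕ × ℕ × ℕ × Bool

/-- the literal number `i` -/
def lit (φ : List (Cl3 ℕ)) (i : ℕ) : ℕ × Bool :=
  (φ.flatMap fun C => [C.1, C.2.1, C.2.2]).getD i (0, true)

/-- the names of the vertices of both sides -/
def names (φ : List (Cl3 ℕ)) : List Nm :=
  (([0, 1] ×ˢ List.range (3 * φ.length) ×ˢ List.range (3 * φ.length) ×ˢ [false, true]) : List Nm) ++
    (List.range φ.length).map fun j => (2, j, 0, false)

/-- the edges of colour 1 at the pair `(x, i)` -/
def edg1 (N x i : ℕ) : List (Nm × Nm) :=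
  [((0, x, i, false), (0, x, i, false)), ((0, x, i, true), (0, x, i, true)),
    ((0, x, i, true), (0, x, i, false)), ((0, x, (i + 1) % N, false), (0, x, i, true)),
    ((1, x, i, false), (1, x, i, false)), ((1, x, i, true), (1, x, i, true))]

/-- the edges of colour 2 at the pair `(x, i)` -/
def edg2 (φ : List (Cl3 ℕ)) (x i : ℕ) : List (Nm × Nm) :=
  [((1, x, i, false), (0, x, i, false)), ((1, x, i, true), (0, x, i, true))] ++
    (if lit φ i = (x, true) then
      [((0, x, i, true), (1, x, i, false)), ((0, x, i, false), (1, x, i, true))]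
    else [((0, x, i, false), (1, x, i, false)), ((0, x, i, true), (1, x, i, true))]) ++
    if (lit φ i).1 = x then
      [((2, i / 3, 0, false), (1, x, i, false)), ((1, x, i, false), (2, i / 3, 0, false))]
    else []

/-- the edges of colour 1 -/
def E1 (φ : List (Cl3 ℕ)) : List (Nm × Nm) :=
  (List.range (3 * φ.length)).flatMap (fun x => (List.range (3 * φ.length)).flatMap fun i =>
    edg1 (3 * φ.length) x i) ++
    (List.range φ.length).map fun j => ((2, j, 0, false), (2, j, 0, false))

/-- the edges of colour 2 -/
def E2 (φ : List (Cl3 ℕ)) : List (Nm × Nm) :=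
  (List.range (3 * φ.length)).flatMap fun x => (List.range (3 * φ.length)).flatMap fun i =>
    edg2 φ x i

/-- the reduction -/
def redC (φ : List (Cl3 ℕ)) : CBG := mkC (names φ) (names φ) (E1 φ) (E2 φ)

@[fun_prop] theorem PT.lit {α : Type} [Enc α] {φ : α → List (Cl3 ℕ)} {i : α → ℕ} (h : PT φ)
    (hi : PT i) : PT (fun a => lit (φ a) (i a)) := by unfold Col.lit; fun_prop

set_option synthInstance.maxSize 1000 in
theorem PT.redC : PT redC := by
  unfold Col.redC names E1 E2 edg1 edg2
  fun_prop

end Pool.Agent.Zk94.Col
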